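import Pool.Agent.L0h50.NR.Fin2

/-!
# Over every number field the average rank of the elliptic curves is bounded

Let `F` be any number field. The family is the one of the problem: the pairs `(A, B)` of integers of `F`
with `4 A³ + 27 B² ≠ 0` such that no nonzero prime ideal `𝔭` has `𝔭⁴ ∣ A` and `𝔭⁶ ∣ B`, ordered by the
height `max_σ max (4 |σ A|³, 27 |σ B|²)`. Let `K / F` be a multiquadratic extension (Galois, with
`σ² = 1` for all `σ`; `K = F` is allowed).

Theorem. There is a constant `C` such that, for all `X`, the average of `2 ^ (rank E(K) / [K : F])` over all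
`E` in the family with height at most `X` is at most `C`; hence the average of the rank of `E(K)` is
bounded, and the proportion of the curves with `rank E(K) ≥ r` is at most `C 2 ^ (- r / [K : F])` for all
`X` and `r`. For `K = F` this says that the average rank over `F` is bounded and that
`∑_{s ≥ r} δ_s(F; X) ≤ C 2 ^ (- r)`: no mass of the distribution of the ranks escapes to infinity.

The same holds on the vertical lines: for every `A` and `X` with `|σ A|³ ≤ X²` for all `σ`, the averages over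
all integers `B` with `|σ B| ≤ X` for all `σ` and `4 A³ + 27 B² ≠ 0` are at most `C`, uniformly in `A`; for
example over all the curves `y² = x³ + B`.

The proof. A point of `E(F)` gives a binary quartic form over `F` with the invariants `- 48 A`, `- 1728 B`
and with bounded denominators (the class group of `F` enters here, by the ideals of denominators of the
point), and inequivalent points modulo `2 E(F)` give forms which are not equivalent under `SL₂(F)`. The
forms are reduced at all infinite places (complex forms with bounded invariants lie in a compact set up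
to `SL₂(ℂ)`; real forms by the same argument) and then by lattices over the integers of `F` with bounded
denominators; the forms with leading coefficient zero are those with a root. In the boxes all the forms
are counted, for fixed `I` by counting the points on the quadric `12 a e - 3 b d + c² = I` with divisor
sums over `F`. The number of the curves in the family is bounded below by a sieve for the prime ideals.
The rank over `K` is at most the sum of the ranks of the quadratic twists by `F`-integers. Nothing is used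
of the geometry-of-numbers sieve, of Selmer groups or of L-functions.

Projects NR (helper50) and NF (helper45). Parts by helpers 9 (divisor sums, squares, zeta sums over `F`),
17 (lattices over the integers of `F`), 19 (the form of a point), 37 (multiquadratic extensions),
45 (vertical lines, statements, reduction), 48 (denominators and the class group), 57 (boxes of integers),
71 (the quadric with fixed `I`), 83 (complex forms, all places), 90 (equivalence and points modulo `2`),
95 (forms from points modulo `2`) and 50 (reduction, boxes, count, lower bound, this file).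
-/

set_option autoImplicit false
set_option linter.all false

namespace Pool.Agent.Results.MP_7cad78_nt.BoundedAverageEveryNumberField

open NumberField
open scoped Classical

section defs

variable (F : Type) [Field F] [NumberField F]

/-- The family of the problem: pairs of integers `(A, B)` with `4 A ^ 3 + 27 B ^ 2 ≠ 0` for which no
nonzero prime ideal `𝔭` satisfies both `𝔭 ^ 4 ∣ A` and `𝔭 ^ 6 ∣ B`. -/
def Family : Set (𝓞 F × 𝓞 F) :=
  {p | 4 * p.1 ^ 3 + 27 * p.2 ^ 2 ≠ 0 ∧
    ∀ 𝔭 : Ideal (𝓞 F), 𝔭.IsPrime → 𝔭 ≠ ⊥ → ¬ (p.1 ∈ 𝔭 ^ 4 ∧ p.2 ∈ 𝔭 ^ 6)}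

variable {F}

/-- The height `max_σ max (4 |σ A|³, 27 |σ B|²)`, over the embeddings `σ : F → ℂ`. -/
noncomputable def height (p : 𝓞 F × 𝓞 F) : ℝ :=
  ⨆ σ : F →+* ℂ, max (4 * ‖σ (p.1 : F)‖ ^ 3) (27 * ‖σ (p.2 : F)‖ ^ 2)

/-- The curve `y ^ 2 = x ^ 3 + A x + B` over `F`. -/
def curve (p : 𝓞 F × 𝓞 F) : WeierstrassCurve F := ⟨0, 0, 0, (p.1 : F), (p.2 : F)⟩

/-- The group `E(K)`, for an extension `K` of `F`. -/
abbrev Pts (K : Type) [Field K] [Algebra F K] (p : 𝓞 F × 𝓞 F) : Type :=
  ((curve p).baseChange K).toAffine.Point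

/-- The rank of `E(K)`. -/
noncomputable def rank (K : Type) [Field K] [Algebra F K] (p : 𝓞 F × 𝓞 F) : ℕ :=
  Module.finrank ℤ (Pts K p)

variable (F)

/-- The members of the family of height at most `X`. -/
def UpTo (X : ℝ) : Set (𝓞 F × 𝓞 F) := {p ∈ Family F | height p ≤ X}

variable {F}

/-- The vertical line: the pairs `(A, B)` with fixed `A`, with `4 A ^ 3 + 27 B ^ 2 ≠ 0` and `|σ B| ≤ X` for
all `σ`. -/
def Line (A : 𝓞 F) (X : ℝ) : Set (𝓞 F × 𝓞 F) :=
  {p | p.1 = A ∧ 4 * p.1 ^ 3 + 27 * p.2 ^ 2 ≠ 0 ∧ ∀ σ : F →+* ℂ, ‖σ (p.2 : F)‖ ≤ X}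

/-- The average of `f` over the finite set `S` (zero for the empty set). -/
noncomputable def mean {α : Type} (S : Set α) (f : α → ℝ) : ℝ := (∑ᶠ x ∈ S, f x) / (S.ncard : ℝ)

/-- `K / F` is a multiquadratic extension: Galois, with `σ² = 1` for all `σ` in the Galois group. -/
def Multiquadratic (F K : Type) [Field F] [Field K] [Algebra F K] : Prop :=
  IsGalois F K ∧ ∀ σ : K ≃ₐ[F] K, σ * σ = 1

end defs

theorem mem_iff {F : Type} [Field F] [NumberField F] (X : ℝ) (p : 𝓞 F × 𝓞 F) :
    Pool.Agent.L0h50.NR.Mem X p ↔ p ∈ UpTo F X := by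
  have hb : BddAbove (Set.range fun σ : F →+* ℂ =>
      max (4 * ‖σ (p.1 : F)‖ ^ 3) (27 * ‖σ (p.2 : F)‖ ^ 2)) := Set.Finite.bddAbove (Set.finite_range _)
  constructor
  · rintro ⟨h1, h2, h3⟩
    refine ⟨⟨h1, h2⟩, ciSup_le fun σ => max_le (h3 σ).1 (h3 σ).2⟩
  · rintro ⟨⟨h1, h2⟩, h3⟩
    refine ⟨h1, h2, fun σ => ?_⟩
    have h4 := (le_ciSup hb σ).trans h3
    exact ⟨(le_max_left _ _).trans h4, (le_max_right _ _).trans h4⟩

theorem upTo_eq {F : Type} [Field F] [NumberField F] (X : ℝ) :
    UpTo F X = {p : 𝓞 F × 𝓞 F | Pool.Agent.L0h50.NR.Mem X p} := by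
  ext p
  exact (mem_iff X p).symm

theorem upTo_fin {F : Type} [Field F] [NumberField F] (X : ℝ) : (UpTo F X).Finite := by
  rw [upTo_eq]
  exact Pool.Agent.L0h50.NR.mem_fin X

theorem line_eq {F : Type} [Field F] [NumberField F] (A : 𝓞 F) (X : ℝ) :
    Line A X = (fun B : 𝓞 F => (A, B)) '' (Pool.Agent.L0h50.NR.Lin A X) := by
  ext ⟨a, b⟩
  constructor
  · rintro ⟨h1, h2, h3⟩
    simp only at h1 h2 h3
    subst h1
    exact ⟨b, ⟨h2, h3⟩, rfl⟩
  · rintro ⟨B, ⟨h1, h2⟩, h3⟩
    simp only [Prod.mk.injEq] at h3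
    obtain ⟨rfl, rfl⟩ := h3
    exact ⟨rfl, h1, h2⟩

theorem line_fin {F : Type} [Field F] [NumberField F] (A : 𝓞 F) (X : ℝ) : (Line A X).Finite := by
  rw [line_eq]
  exact (Pool.Agent.L0h50.NR.lin_fin A X).image _

theorem rank_eq {F K : Type} [Field F] [Field K] [Algebra F K] (p : 𝓞 F × 𝓞 F) :
    rank K p = Module.finrank ℤ (Pool.Agent.L0h50.NR.crv (algebraMap F K (p.1 : F))
      (algebraMap F K (p.2 : F))).toAffine.Point := by
  have h : (curve p).baseChange K =
      Pool.Agent.L0h50.NR.crv (algebraMap F K (p.1 : F)) (algebraMap F K (p.2 : F)) := by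
    simp [curve, Pool.Agent.L0h50.NR.crv, WeierstrassCurve.baseChange, WeierstrassCurve.map]
  unfold rank Pts
  rw [h]

theorem mean_le {α : Type} {S : Set α} (hS : S.Finite) {f : α → ℝ} {C : ℝ} (hC : 0 ≤ C)
    (h : ∑ x ∈ hS.toFinset, f x ≤ C * (S.ncard : ℝ)) : mean S f ≤ C := by
  unfold mean
  rw [finsum_mem_eq_finite_toFinset_sum _ hS]
  rcases Nat.eq_zero_or_pos S.ncard with h0 | h0
  · rw [h0, Nat.cast_zero, div_zero]
    exact hC
  · rw [div_le_iff₀ (by exact_mod_cast h0)]
    exact h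

/-- the average of the rank -/
theorem rank_le (m r : ℕ) (hm : 0 < m) : (r : ℝ) ≤ m * (2 : ℝ) ^ ((r : ℝ) / m) := by
  have hm' : (0 : ℝ) < m := by exact_mod_cast hm
  have h1 : (r : ℝ) / m ≤ (2 : ℝ) ^ ((r : ℝ) / m) := by
    have h2 := one_add_mul_self_le_rpow_one_add (s := (1 : ℝ)) (by norm_num) (p := (r : ℝ) / m)
    by_cases h3 : 1 ≤ (r : ℝ) / m
    · have := h2 h3
      norm_num at this
      linarith
    · push Not at h3
      have h4 : (1 : ℝ) ≤ (2 : ℝ) ^ ((r : ℝ) / m) := Real.one_le_rpow (by norm_num) (by positivity)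
      linarith
  rwa [div_le_iff₀' hm'] at h1

/-- the tail -/
theorem tail_le {α : Type} {S : Set α} (hS : S.Finite) (ρ : α → ℕ) (m r : ℕ) {C : ℝ}
    (h : ∑ x ∈ hS.toFinset, (2 : ℝ) ^ ((ρ x : ℝ) / m) ≤ C * (S.ncard : ℝ)) :
    ({x ∈ S | r ≤ ρ x}.ncard : ℝ) ≤ C * (2 : ℝ) ^ (-((r : ℝ) / m)) * (S.ncard : ℝ) := by
  have h1 : {x ∈ S | r ≤ ρ x} = ((hS.toFinset.filter fun x => r ≤ ρ x : Finset α) : Set α) := by
    ext x
    simp
  rw [h1, Set.ncard_coe_finset]
  have h2 : ((hS.toFinset.filter fun x => r ≤ ρ x).card : ℝ) * (2 : ℝ) ^ ((r : ℝ) / m) ≤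
      C * (S.ncard : ℝ) := by
    refine le_trans ?_ h
    rw [← nsmul_eq_mul, ← Finset.sum_const]
    refine le_trans (Finset.sum_le_sum (g := fun x => (2 : ℝ) ^ ((ρ x : ℝ) / m)) fun x hx => ?_)
      (Finset.sum_le_sum_of_subset_of_nonneg (Finset.filter_subset _ _)
        fun x _ _ => by positivity)
    rw [Finset.mem_filter] at hx
    refine Real.rpow_le_rpow_of_exponent_le (by norm_num) ?_
    have : (r : ℝ) ≤ ρ x := by exact_mod_cast hx.2
    gcongr
  have h3 : (0 : ℝ) < (2 : ℝ) ^ ((r : ℝ) / m) := by positivity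
  rw [Real.rpow_neg (by norm_num)]
  calc ((hS.toFinset.filter fun x => r ≤ ρ x).card : ℝ) ≤
        C * (S.ncard : ℝ) / (2 : ℝ) ^ ((r : ℝ) / m) := by rwa [le_div_iff₀ h3]
    _ = C * ((2 : ℝ) ^ ((r : ℝ) / m))⁻¹ * (S.ncard : ℝ) := by ring

/-- the three estimates -/
theorem three {α : Type} {S : Set α} (hS : S.Finite) (ρ : α → ℕ) (m : ℕ) (hm : 0 < m) {c C : ℝ}
    (hc : 0 ≤ c) (hC : m * c ≤ C)
    (h : ∑ x ∈ hS.toFinset, (2 : ℝ) ^ ((ρ x : ℝ) / m) ≤ c * (S.ncard : ℝ)) :
    mean S (fun x => (ρ x : ℝ)) ≤ C ∧ mean S (fun x => (2 : ℝ) ^ ((ρ x : ℝ) / m)) ≤ C ∧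
    ∀ r : ℕ, ({x ∈ S | r ≤ ρ x}.ncard : ℝ) ≤ C * (2 : ℝ) ^ (-((r : ℝ) / m)) * (S.ncard : ℝ) := by
  have hm1 : (1 : ℝ) ≤ m := by exact_mod_cast hm
  have hcC : c ≤ C := by nlinarith
  have hC0 : 0 ≤ C := hc.trans hcC
  refine ⟨mean_le hS hC0 ?_, mean_le hS hC0 ?_, fun r => ?_⟩
  · calc ∑ x ∈ hS.toFinset, (ρ x : ℝ) ≤ ∑ x ∈ hS.toFinset, m * (2 : ℝ) ^ ((ρ x : ℝ) / m) :=
          Finset.sum_le_sum fun x _ => rank_le m (ρ x) hm
      _ = m * ∑ x ∈ hS.toFinset, (2 : ℝ) ^ ((ρ x : ℝ) / m) := by rw [Finset.mul_sum]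
      _ ≤ m * (c * (S.ncard : ℝ)) := by gcongr
      _ = m * c * (S.ncard : ℝ) := by ring
      _ ≤ C * (S.ncard : ℝ) := by gcongr
  · refine h.trans ?_
    gcongr
  · refine (tail_le hS ρ m r h).trans ?_
    gcongr

theorem line_empty {F : Type} [Field F] [NumberField F] (A : 𝓞 F) (X : ℝ) (hX : X < 1)
    (hA : ∀ σ : F →+* ℂ, ‖σ (A : F)‖ ^ 3 ≤ X ^ 2) : Line A X = ∅ := by
  obtain ⟨h0, -⟩ := Pool.Agent.N490.PF.pts F
  rw [Set.eq_empty_iff_forall_notMem]
  rintro ⟨a, b⟩ ⟨h1, h2, h3⟩
  simp only at h1 h2 h3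
  subst h1
  have hX0 : 0 ≤ X := by
    obtain ⟨σ⟩ : Nonempty (F →+* ℂ) := inferInstance
    exact (norm_nonneg _).trans (h3 σ)
  have hb : b = 0 := h0 b X hX h3
  have ha : a = 0 := by
    refine h0 a ((X ^ 2) ^ (1 / 3 : ℝ)) ?_ fun σ => ?_
    · exact Real.rpow_lt_one (by positivity) (by nlinarith) (by norm_num)
    · refine le_of_pow_le_pow_left₀ (n := 3) (by norm_num) (Real.rpow_nonneg (by positivity) _) ?_
      rw [← Real.rpow_natCast ((X ^ 2) ^ (1 / 3 : ℝ)) 3, ← Real.rpow_mul (by positivity)]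
      norm_num
      exact hA σ
  apply h2
  rw [ha, hb]
  ring

/-- **Bounded average rank over every number field**, on the family of the problem and on all the
vertical lines, for the ranks over multiquadratic extensions `K / F` (`K = F` is allowed; all the groups
`E(K)` are finitely generated). -/
theorem result (F : Type) [Field F] [NumberField F] :
    Multiquadratic F F ∧
    (∀ X : ℝ, (UpTo F X).Finite) ∧ (∀ (A : 𝓞 F) (X : ℝ), (Line A X).Finite) ∧
    ∀ (K : Type) [Field K] [NumberField K] [Algebra F K],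
      (∀ p : 𝓞 F × 𝓞 F, 4 * p.1 ^ 3 + 27 * p.2 ^ 2 ≠ 0 → AddGroup.FG (Pts K p)) ∧
      (Multiquadratic F K → ∃ C : ℝ, ∀ X : ℝ,
        (mean (UpTo F X) (fun p => (rank K p : ℝ)) ≤ C ∧
        mean (UpTo F X) (fun p => (2 : ℝ) ^ ((rank K p : ℝ) / Module.finrank F K)) ≤ C ∧
        ∀ r : ℕ, ({p ∈ UpTo F X | r ≤ rank K p}.ncard : ℝ) ≤
          C * (2 : ℝ) ^ (-((r : ℝ) / Module.finrank F K)) * ((UpTo F X).ncard : ℝ)) ∧
        ∀ A : 𝓞 F, (∀ σ : F →+* ℂ, ‖σ (A : F)‖ ^ 3 ≤ X ^ 2) →
          mean (Line A X) (fun p => (rank K p : ℝ)) ≤ C ∧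
          mean (Line A X) (fun p => (2 : ℝ) ^ ((rank K p : ℝ) / Module.finrank F K)) ≤ C ∧
          ∀ r : ℕ, ({p ∈ Line A X | r ≤ rank K p}.ncard : ℝ) ≤
            C * (2 : ℝ) ^ (-((r : ℝ) / Module.finrank F K)) * ((Line A X).ncard : ℝ)) := by
  refine ⟨⟨inferInstance, fun σ => by ext x; simp [Subsingleton.elim σ 1]⟩, upTo_fin, line_fin, ?_⟩
  intro K _ _ _
  refine ⟨fun p hp => ?_, fun hK => ?_⟩
  · refine Pool.Agent.Q286.EQ.mordell_weil K _ ?_
    have h : (curve p).baseChange K =
        Pool.Agent.L0h50.NR.crv (algebraMap F K (p.1 : F)) (algebraMap F K (p.2 : F)) := by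
      simp [curve, Pool.Agent.L0h50.NR.crv, WeierstrassCurve.baseChange, WeierstrassCurve.map]
    rw [h]
    refine Pool.Agent.L0h37.NR.crv_ne ?_
    intro h0
    apply hp
    apply NumberField.RingOfIntegers.coe_injective
    apply (algebraMap F K).injective
    rw [map_zero, map_zero, ← h0]
    simp only [map_add, map_mul, map_pow, map_ofNat]
  · haveI := hK.1
    obtain ⟨C₁, hC₁, h₁⟩ := Pool.Agent.L0h50.NR.mq Pool.Agent.L0h37.NR.rkq F K hK.2
    obtain ⟨C₂, hC₂, h₂⟩ := Pool.Agent.L0h50.NR.line_mq Pool.Agent.L0h37.NR.rkq F K hK.2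
    have hm : 0 < Module.finrank F K := Module.finrank_pos
    have hm' : (0 : ℝ) < Module.finrank F K := by exact_mod_cast hm
    refine ⟨Module.finrank F K * (C₁ + C₂), fun X => ⟨?_, fun A hA => ?_⟩⟩
    · refine three (upTo_fin X) (rank K) _ hm hC₁.le (by gcongr; linarith) ?_
      have h3 := h₁ X (upTo_fin X).toFinset (fun p hp => by
        rw [Set.Finite.mem_toFinset] at hp
        exact (mem_iff X p).2 hp)
      rw [← upTo_eq] at h3
      refine le_trans (le_of_eq (Finset.sum_congr rfl fun p _ => ?_)) h3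
      rw [rank_eq]
    · refine three (line_fin A X) (rank K) _ hm hC₂.le (by gcongr; linarith) ?_
      rcases lt_or_ge X 1 with hX | hX
      · have he := line_empty A X hX hA
        have he' : (line_fin A X).toFinset = ∅ := by
          rw [Set.Finite.toFinset_eq_empty]
          exact he
        rw [he', Finset.sum_empty]
        positivity
      · have h3 := h₂ A X hX hA
        have hinj : Function.Injective (fun B : 𝓞 F => (A, B)) := fun a b h => by
          simpa using h
        have e1 : (line_fin A X).toFinset =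
            (Pool.Agent.L0h50.NR.lin_fin A X).toFinset.image (fun B : 𝓞 F => (A, B)) := by
          ext q
          rw [Set.Finite.mem_toFinset, line_eq, Finset.mem_image, Set.mem_image]
          simp only [Set.Finite.mem_toFinset]
        have e2 : (Line A X).ncard = (Pool.Agent.L0h50.NR.Lin A X).ncard := by
          rw [line_eq, Set.ncard_image_of_injective _ hinj]
        rw [e1, e2, Finset.sum_image (fun a _ b _ h => hinj h)]
        refine le_trans (le_of_eq (Finset.sum_congr rfl fun B _ => ?_)) h3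
        rw [rank_eq]

end Pool.Agent.Results.MP_7cad78_nt.BoundedAverageEveryNumberField
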