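import Pool.Agent.L0h94.SP.Main

/-!
# Every 2-Selmer rank occurs for a positive proportion of all elliptic curves over every number field

Let `F` be any number field. The family is the one of the problem: the pairs `(A, B)` of integers of `F`
with `4 A³ + 27 B² ≠ 0` such that no nonzero prime ideal `𝔭` has `𝔭⁴ ∣ A` and `𝔭⁶ ∣ B`, ordered by the
height `max_σ max (4 |σ A|³, 27 |σ B|²)`.

Theorem. For every number field `F` and every `a ≥ 0` there is `c > 0` such that for all large `X` at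
least `c` times the number of all pairs of height at most `X` have a 2-Selmer group over `F` with
exactly `2 ^ a` elements, no point of order 2 over `F` and rank at most `a` over `F`. The same holds
for the family of all pairs with `4 A³ + 27 B² ≠ 0` (minimal or not), ordered by the height
`max_v max (|A|_v³, |B|_v²)` with the normalized absolute values.

The 2-Selmer group is the group of the classes in `H¹(F, E[2])` (continuous cocycles of the absolute
Galois group) which are trivial in `H¹(F_v, E)` for all places `v`. (At the complex places there is no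
condition.)

Project SP (helper94). The proof modifies the project PF (helper783, the case `a = 0`, for all
hyperelliptic curves of odd degree): we use that for most members of the family every class ramified
at a given set of primes is locally trivial at about half of the next, much larger, block of
primes; so primes with prescribed localizations of finitely many classes exist, and linear
algebra for quadratic forms over the field with two elements shows that some quadratic twist has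
Selmer rank `a`. No duality theorem and no local index formula at 2 is used: a bounded defect is
allowed.
-/

set_option autoImplicit false
set_option linter.all false

namespace Pool.Agent.Results.MP_7cad78_nt.EverySelmerRank

open Filter NumberField Polynomial IsDedekindDomain
open Pool.Agent.TH115.GD (Pt act rs IsCoc LocTriv Comp Sep)
open scoped Classical

section defs

variable (F : Type) [Field F] [NumberField F]

/-- The family of the problem: pairs of integers `(A, B)` with `4 A ^ 3 + 27 B ^ 2 ≠ 0` for which no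
nonzero prime ideal `𝔭` satisfies both `𝔭 ^ 4 ∣ A` and `𝔭 ^ 6 ∣ B`. -/
def Family : Set (𝓞 F × 𝓞 F) :=
  {p | 4 * p.1 ^ 3 + 27 * p.2 ^ 2 ≠ 0 ∧
    ∀ 𝔭 : Ideal (𝓞 F), 𝔭.IsPrime → 𝔭 ≠ ⊥ → ¬ (p.1 ∈ 𝔭 ^ 4 ∧ p.2 ∈ 𝔭 ^ 6)}

variable {F}

/-- The height `max_σ max (4 |σ A|³, 27 |σ B|²)`, over the embeddings `σ : F → ℂ`. -/
noncomputable def height (p : 𝓞 F × 𝓞 F) : ℝ :=
  ⨆ σ : F →+* ℂ, max (4 * ‖σ (p.1 : F)‖ ^ 3) (27 * ‖σ (p.2 : F)‖ ^ 2)

/-- The curve `y ^ 2 = x ^ 3 + A x + B` over `F`. -/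
def curve (p : 𝓞 F × 𝓞 F) : WeierstrassCurve F := ⟨0, 0, 0, (p.1 : F), (p.2 : F)⟩

/-- The rank of the group of the points over `F`. -/
noncomputable def rank (p : 𝓞 F × 𝓞 F) : ℕ := Module.finrank ℤ (curve p).toAffine.Point

variable (F)

/-- The members of the family of height at most `X`. -/
def UpTo (X : ℝ) : Set (𝓞 F × 𝓞 F) := {p ∈ Family F | height p ≤ X}

/-- All the pairs `(A, B)` with `4 A ^ 3 + 27 B ^ 2 ≠ 0` and `max_v max (|A|_v ^ 3, |B|_v ^ 2) ≤ X`, where
`v` runs over the infinite places and `|x|_v = v(x) ^ mult v` is the normalized absolute value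
(`|σ x|` or `|σ x| ^ 2`). -/
def AllUpTo (X : ℝ) : Set (𝓞 F × 𝓞 F) :=
  {p | 4 * p.1 ^ 3 + 27 * p.2 ^ 2 ≠ 0 ∧ ∀ v : InfinitePlace F,
    max ((v (p.1 : F) ^ v.mult) ^ 3) ((v (p.2 : F) ^ v.mult) ^ 2) ≤ X}

variable {F}

/-- The polynomial `x ^ 3 + A x + B`. -/
noncomputable def cubic (p : 𝓞 F × 𝓞 F) : F[X] := X ^ 3 + C (p.1 : F) * X + C (p.2 : F)

/-- A continuous cocycle of the absolute Galois group `Gal(Sep F / F)` of `F` with values in the group
`E[2]` of the points of order at most two of `E`, `E = curve p`, over the separable closure `Sep F`. -/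
def IsCocycle (p : 𝓞 F × 𝓞 F) (f : (Sep F ≃ₐ[F] Sep F) → Pt (curve p) (Sep F)) : Prop :=
  IsCoc (curve p) f ∧ ∀ σ, (2 : ℕ) • f σ = 0

/-- The cocycles `f` and `g` differ by the coboundary `σ ↦ σ T - T` of a point `T` of `E[2]`. -/
def Cohomologous (p : 𝓞 F × 𝓞 F) (f g : (Sep F ≃ₐ[F] Sep F) → Pt (curve p) (Sep F)) : Prop :=
  ∃ T : Pt (curve p) (Sep F), (2 : ℕ) • T = 0 ∧ ∀ σ, f σ - g σ = act (curve p) (rs F σ) T - T

/-- The set `H¹(F, E[2])` of the classes of the cocycles. -/
def H1 (p : 𝓞 F × 𝓞 F) : Type := Quot fun f g : {f // IsCocycle p f} => Cohomologous p f.1 g.1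

/-- The cocycle becomes a coboundary in `E(Sep F_v)` at every place `v` of `F`: at the completion `F_w`
for every nonzero prime ideal `w`, and over `ℝ` for every real embedding. -/
structure EverywhereTrivial (p : 𝓞 F × 𝓞 F) (f : (Sep F ≃ₐ[F] Sep F) → Pt (curve p) (Sep F)) :
    Prop where
  finite : ∀ w : HeightOneSpectrum (𝓞 F),
    LocTriv (curve p) (Comp (𝓞 F) F w) (Sep (Comp (𝓞 F) F w)) f
  real : ∀ ρ : F →+* ℝ, letI := ρ.toAlgebra; LocTriv (curve p) ℝ (Sep ℝ) f

/-- The 2-Selmer group of `E` over `F`: the kernel of `H¹(F, E[2]) → ∏ H¹(F_v, E)`. -/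
def Selmer (p : 𝓞 F × 𝓞 F) : Set (H1 p) := {c | ∃ f, c = Quot.mk _ f ∧ EverywhereTrivial p f.1}

/-- There is no point of order 2 over `F` (the polynomial `x ^ 3 + A x + B` is irreducible over `F`),
the 2-Selmer group over `F` has exactly `2 ^ a` elements and the rank over `F` is at most `a`. -/
def SelmerRank (a : ℕ) (p : 𝓞 F × 𝓞 F) : Prop :=
  Irreducible (cubic p) ∧ (Selmer p).ncard = 2 ^ a ∧ rank p ≤ a

/-- `S X` is the finite set of the pairs of height at most `X` in a family; there is `c > 0` such that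
for all large `X` this set is not empty and the proportion of its elements with the property `P` is
at least `c`. -/
def PositiveProportion (S : ℝ → Set (𝓞 F × 𝓞 F)) (P : 𝓞 F × 𝓞 F → Prop) : Prop :=
  (∀ X : ℝ, (S X).Finite) ∧ ∃ c : ℝ, 0 < c ∧ ∀ᶠ X : ℝ in atTop, 0 < (S X).ncard ∧
    c * ((S X).ncard : ℝ) ≤ ({p ∈ S X | P p}.ncard : ℝ)

end defs

theorem crv_iff {F : Type} [Field F] [NumberField F] (X : ℝ) (p : 𝓞 F × 𝓞 F) :
    Pool.Agent.N783.PF.Crv X p ↔ p ∈ UpTo F X := by
  have hb : BddAbove (Set.range fun σ : F →+* ℂ =>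
      max (4 * ‖σ (p.1 : F)‖ ^ 3) (27 * ‖σ (p.2 : F)‖ ^ 2)) := Set.Finite.bddAbove (Set.finite_range _)
  constructor
  · rintro ⟨h1, h2, h3⟩
    refine ⟨⟨h1, h2⟩, ciSup_le fun σ => max_le (h3 σ).1 (h3 σ).2⟩
  · rintro ⟨⟨h1, h2⟩, h3⟩
    refine ⟨h1, h2, fun σ => ?_⟩
    have h4 := (le_ciSup hb σ).trans h3
    exact ⟨(le_max_left _ _).trans h4, (le_max_right _ _).trans h4⟩

theorem cub_eq {F : Type} [Field F] [NumberField F] (p : 𝓞 F × 𝓞 F) :
    Pool.Agent.N783.PF.fF (X ^ 3 + C p.1 * X + C p.2 : (𝓞 F)[X]) = cubic p := by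
  unfold Pool.Agent.N783.PF.fF cubic
  simp

theorem coh_equiv {F : Type} [Field F] [NumberField F] (p : 𝓞 F × 𝓞 F) :
    Equivalence fun f g : {f // IsCocycle p f} => Cohomologous p f.1 g.1 where
  refl f := ⟨0, by simp, fun σ => by simp⟩
  symm := by
    rintro f g ⟨T, hT, h⟩
    refine ⟨-T, by rw [smul_neg, hT, neg_zero], fun σ => ?_⟩
    rw [map_neg, ← neg_sub (f.1 σ), h σ]
    abel
  trans := by
    rintro f g k ⟨T, hT, h⟩ ⟨T', hT', h'⟩
    refine ⟨T + T', by rw [smul_add, hT, hT', add_zero], fun σ => ?_⟩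
    rw [map_add, ← sub_add_sub_cancel (f.1 σ) (g.1 σ) (k.1 σ), h σ, h' σ]
    abel

theorem mk_eq_iff {F : Type} [Field F] [NumberField F] (p : 𝓞 F × 𝓞 F) (f g : {f // IsCocycle p f}) :
    (Quot.mk _ f : H1 p) = Quot.mk _ g ↔ Cohomologous p f.1 g.1 := by
  refine ⟨fun h => ?_, fun h => Quot.sound h⟩
  have h1 := Quot.eqvGen_exact h
  exact (Equivalence.eqvGen_iff (coh_equiv p)).1 h1

theorem card_of {F : Type} [Field F] [NumberField F] (p : 𝓞 F × 𝓞 F) (N : ℕ)
    (h : Pool.Agent.L0h94.SP.SelCN (Pool.Agent.N874.PP.sW (p.1 : F) (p.2 : F)) N) :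
    (Selmer p).ncard = N := by
  obtain ⟨R, hR, h1, h2, h3⟩ := h
  have hc : ∀ f ∈ R, IsCocycle p f := fun f hf => (h1 f hf).1
  let φ : {f // f ∈ R} → H1 p := fun f => Quot.mk _ ⟨f.1, hc f.1 f.2⟩
  have him : Selmer p = Set.range φ := by
    ext c
    constructor
    · rintro ⟨f, rfl, hf⟩
      obtain ⟨g, hg, hfg⟩ := h3 f.1 f.2 ⟨hf.finite, hf.real⟩
      refine ⟨⟨g, hg⟩, ?_⟩
      have hfg' : Cohomologous p f.1 (⟨g, hc g hg⟩ : {f // IsCocycle p f}).1 := hfg
      exact ((mk_eq_iff p _ _).2 hfg').symm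
    · rintro ⟨f, rfl⟩
      exact ⟨⟨f.1, hc f.1 f.2⟩, rfl, ⟨(h1 f.1 f.2).2.fin, (h1 f.1 f.2).2.real⟩⟩
  have hinj : Function.Injective φ := by
    intro f g he
    by_contra hne
    exact h2 f.1 f.2 g.1 g.2 (fun e => hne (Subtype.ext e)) ((mk_eq_iff p _ _).1 he)
  rw [him, ← Set.image_univ, Set.ncard_image_of_injective _ hinj, Set.ncard_univ,
    Nat.card_eq_fintype_card, Fintype.card_coe, hR]

theorem all_iff {F : Type} [Field F] [NumberField F] (X : ℝ) (p : 𝓞 F × 𝓞 F) :
    Pool.Agent.L0h94.SP.PCrv X p ↔ p ∈ AllUpTo F X := by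
  constructor
  · rintro ⟨h1, h2⟩
    exact ⟨h1, fun v => max_le (h2 v).1 (h2 v).2⟩
  · rintro ⟨h1, h2⟩
    exact ⟨h1, fun v => ⟨(le_max_left _ _).trans (h2 v), (le_max_right _ _).trans (h2 v)⟩⟩

theorem selmerRank_of {F : Type} [Field F] [NumberField F] {a : ℕ} {p : 𝓞 F × 𝓞 F}
    (hd : 4 * p.1 ^ 3 + 27 * p.2 ^ 2 ≠ 0)
    (hi : Irreducible (Pool.Agent.N783.PF.fF
      (Polynomial.X ^ 3 + C p.1 * Polynomial.X + C p.2 : (𝓞 F)[X])))
    (hs : Pool.Agent.L0h94.SP.SelN
      (Polynomial.X ^ 3 + C p.1 * Polynomial.X + C p.2 : (𝓞 F)[X]) (2 ^ a)) :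
    SelmerRank a p := by
  refine ⟨by rw [← cub_eq]; exact hi,
    card_of p _ (Pool.Agent.L0h94.SP.m_cod F p.1 p.2 _ hd hi hs), ?_⟩
  have h4 := Pool.Agent.L0h94.SP.m_rkn F p.1 p.2 _ hd hi hs
  exact (Nat.pow_le_pow_iff_right (by norm_num)).1 h4

/-- **Theorem.** Let `F` be a number field and `a ≥ 0`. A positive proportion of all elliptic curves over
`F` has a 2-Selmer group over `F` with exactly `2 ^ a` elements (no point of order 2, and rank at most
`a`). This holds for the family of the problem, and for the family of all pairs `(A, B)`, ordered by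
the height with normalized absolute values. -/
theorem result (F : Type) [Field F] [NumberField F] (a : ℕ) :
    PositiveProportion (UpTo F) (SelmerRank a) ∧ PositiveProportion (AllUpTo F) (SelmerRank a) := by
  constructor
  · have hset : ∀ X : ℝ, UpTo F X = {p : 𝓞 F × 𝓞 F | Pool.Agent.N783.PF.Crv X p} := by
      intro X
      ext p
      exact (crv_iff X p).symm
    obtain ⟨c, hc, Y₀, h⟩ := Pool.Agent.L0h94.SP.m_fns F a
    have hfin : ∀ X : ℝ, (UpTo F X).Finite := fun X => by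
      rw [hset]
      exact (h X).1
    refine ⟨hfin, c, hc, ?_⟩
    filter_upwards [eventually_ge_atTop Y₀] with X hX
    obtain ⟨h1, h2⟩ := (h X).2 hX
    rw [← hset] at h1 h2
    refine ⟨h1, h2.trans ?_⟩
    have h3 : {p : 𝓞 F × 𝓞 F | Pool.Agent.N783.PF.Crv X p ∧
        Irreducible (Pool.Agent.N783.PF.fF
          (Polynomial.X ^ 3 + C p.1 * Polynomial.X + C p.2 : (𝓞 F)[X])) ∧
        Pool.Agent.L0h94.SP.SelN
          (Polynomial.X ^ 3 + C p.1 * Polynomial.X + C p.2 : (𝓞 F)[X]) (2 ^ a)} ⊆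
        {p ∈ UpTo F X | SelmerRank a p} := by
      rintro p ⟨hp, hi, hs⟩
      exact ⟨(crv_iff X p).1 hp, selmerRank_of hp.disc hi hs⟩
    exact_mod_cast Set.ncard_le_ncard h3 ((hfin X).subset fun p hp => hp.1)
  · have hset : ∀ X : ℝ, AllUpTo F X = {p : 𝓞 F × 𝓞 F | Pool.Agent.L0h94.SP.PCrv X p} := by
      intro X
      ext p
      exact (all_iff X p).symm
    obtain ⟨c, hc, Y₀, h⟩ := Pool.Agent.L0h94.SP.m_prd F a
    have hfin : ∀ X : ℝ, (AllUpTo F X).Finite := fun X => by
      rw [hset]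
      exact (h X).1
    refine ⟨hfin, c, hc, ?_⟩
    filter_upwards [eventually_ge_atTop Y₀] with X hX
    obtain ⟨h1, h2⟩ := (h X).2 hX
    rw [← hset] at h1 h2
    refine ⟨h1, h2.trans ?_⟩
    have h3 : {p : 𝓞 F × 𝓞 F | Pool.Agent.L0h94.SP.PCrv X p ∧
        Irreducible (Pool.Agent.N783.PF.fF
          (Polynomial.X ^ 3 + C p.1 * Polynomial.X + C p.2 : (𝓞 F)[X])) ∧
        Pool.Agent.L0h94.SP.SelN
          (Polynomial.X ^ 3 + C p.1 * Polynomial.X + C p.2 : (𝓞 F)[X]) (2 ^ a)} ⊆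
        {p ∈ AllUpTo F X | SelmerRank a p} := by
      rintro p ⟨hp, hi, hs⟩
      exact ⟨(all_iff X p).1 hp, selmerRank_of hp.disc hi hs⟩
    exact_mod_cast Set.ncard_le_ncard h3 ((hfin X).subset fun p hp => hp.1)

end Pool.Agent.Results.MP_7cad78_nt.EverySelmerRank
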