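import Pool.Agent.L0h50.UT.Uni
import Pool.Agent.L0h50.UT.Cov
import Pool.Agent.L0h50.UT.Tr6
import Pool.Agent.L0h50.UT.Tw0
import Pool.Agent.L0h50.UT.FinS
import Pool.Agent.L0h50.UT.Nrm
import Pool.Agent.L0h50.UT.Cpl
import Pool.Agent.L0h51.UT.Lay
import Pool.Agent.L0h51.UT.Done
import Pool.Agent.L0h51.UT.EmbT
import Pool.Agent.L0h89.UT.Spc

/-!
# Elliptic curves over number fields with finitely many points over an infinite Galois extension

Let `F` be any number field. The family is the one of the problem: the pairs `(A, B)` of integers of `F`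
with `4 A³ + 27 B² ≠ 0` such that no nonzero prime ideal `𝔭` has `𝔭⁴ ∣ A` and `𝔭⁶ ∣ B`, ordered by the
height `max_σ max (4 |σ A|³, 27 |σ B|²)`.

Theorem. There is an infinite Galois extension `L / ℚ` (its Galois group is an infinite pro-2 group; `L`
is totally real and unramified outside ten prime numbers, and `2` and infinitely many prime numbers split
completely) such that for every number field `F` a positive proportion of all the elliptic curves `E` over
`F` has finitely many points over the compositum `F L`, an infinite Galois extension of `F`; the order of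
`E(F L)` is odd. Over all the number fields `M` between `F` and `F L` the 2-Selmer group of these curves
is zero and `Ш(E / M)` has no elements of 2-power order. The field `L` does not depend on `F`.

The proof. The 2-descent for the curves `y² = f(x)` over `F`, with `f` irreducible modulo many primes,
twisted by primes `q` in a set `T`, is the one of `RankZeroEveryNumberField` (helper783). The 2-Selmer
group over `M` of such a curve is zero for all the Galois extensions `M / F` of 2-power degree which are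
unramified outside the primes over a finite set `D` and in which the real places and the primes over `2`
and over the elements of `T` split completely: there is no other condition on `M`, and the conditions on
`f` do not depend on `M` (helper51, who has a theorem for one `M` in `TrivialSelmerOverExtensions`). It is
zero over the subfields of `M`, since the degree of `M` is a power of two and `f` is irreducible over `M`. The
extension `L`: the compositum of a Golod-Shafarevich tower over the real quadratic field whose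
discriminant is the product of ten primes, with `2` and an infinite set of primes splitting completely
(TEAM-U, helper718, helper802), and of the conjugate tower. Finiteness over `F L`: a point of odd order
over the completion `F_v`, `v | 2`, has integral coordinates, since doubling moves the other points closer
to zero, and two of them which are congruent modulo `2 (4 A³ + 27 B²)` are equal; so the number of points
over the layers is bounded.

Parts by helper51 (descent over `M`, count, layers), helper89 (ramification and splitting in composita)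
and helper50 (tower, points of odd order, this file).
-/

set_option autoImplicit false
set_option linter.all false

namespace Pool.Agent.Results.MP_7cad78_nt.FiniteOverInfiniteTower

open Filter NumberField IsDedekindDomain
open Pool.Agent.N874.QM (SelC ShaC)
open scoped Classical

attribute [local instance 10] DivisionRing.toRatAlgebra

section defs

variable (F : Type) [Field F] [NumberField F]

/-- The family of the problem: pairs of integers `(A, B)` with `4 A ^ 3 + 27 B ^ 2 ≠ 0` for which no
nonzero prime ideal `𝔭` satisfies both `𝔭 ^ 4 ∣ A` and `𝔭 ^ 6 ∣ B`. -/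
def Family : Set (𝓞 F × 𝓞 F) :=
  {p | 4 * p.1 ^ 3 + 27 * p.2 ^ 2 ≠ 0 ∧
    ∀ 𝔭 : Ideal (𝓞 F), 𝔭.IsPrime → 𝔭 ≠ ⊥ → ¬ (p.1 ∈ 𝔭 ^ 4 ∧ p.2 ∈ 𝔭 ^ 6)}

variable {F}

/-- The height `max_σ max (4 |σ A|³, 27 |σ B|²)`, over the embeddings `σ : F → ℂ`. -/
noncomputable def height (p : 𝓞 F × 𝓞 F) : ℝ :=
  ⨆ σ : F →+* ℂ, max (4 * ‖σ (p.1 : F)‖ ^ 3) (27 * ‖σ (p.2 : F)‖ ^ 2)

/-- The curve `y ^ 2 = x ^ 3 + A x + B` over `F`. -/
def curve (p : 𝓞 F × 𝓞 F) : WeierstrassCurve F := ⟨0, 0, 0, (p.1 : F), (p.2 : F)⟩

variable (F)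

/-- The members of the family of height at most `X`. -/
def UpTo (X : ℝ) : Set (𝓞 F × 𝓞 F) := {p ∈ Family F | height p ≤ X}

variable {F}

/-- The group `E(K)`, for an extension `K` of `F`. -/
abbrev Pts (K : Type) [Field K] [Algebra F K] (p : 𝓞 F × 𝓞 F) : Type :=
  ((curve p).baseChange K).toAffine.Point

/-- `E(K)` is finite of odd order. -/
def FiniteOdd (K : Type) [Field K] [Algebra F K] (p : 𝓞 F × 𝓞 F) : Prop :=
  Finite (Pts K p) ∧ Odd (Nat.card (Pts K p))

/-- The 2-Selmer group of `E` over the number field `M` is zero and `Ш(E / M)` has no elements of 2-power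
order. -/
structure TrivialSelmer (M : Type) [Field M] [NumberField M] [Algebra F M] (p : 𝓞 F × 𝓞 F) :
    Prop where
  selmer : SelC ((curve p).baseChange M)
  sha : ShaC ((curve p).baseChange M)

/-! ### The tower -/

/-- The prime number `q` is unramified in the number field `N`: `q ∉ P ^ 2` for the primes `P` over
`q`. -/
def Unramified (N : Type) [Field N] [NumberField N] (q : ℕ) : Prop :=
  ∀ P : Ideal (𝓞 N), P.IsPrime → (q : 𝓞 N) ∈ P → (q : 𝓞 N) ∉ P ^ 2

/-- The prime number `q` splits completely in `N`: it is unramified and the primes over `q` have norm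
`q`. -/
def SplitsCompletely (N : Type) [Field N] [NumberField N] (q : ℕ) : Prop :=
  Unramified N q ∧ ∀ P : Ideal (𝓞 N), P.IsPrime → (q : 𝓞 N) ∈ P → Nat.card (𝓞 N ⧸ P) = q

/-- Ten prime numbers. -/
def TenPrimes : Set ℕ := {17, 41, 73, 89, 97, 113, 137, 193, 233, 241}

/-- `L / ℚ` is an infinite Galois pro-2 extension, totally real, unramified outside `TenPrimes`, in which
`2` and all the prime numbers in the infinite set `T` split completely. -/
structure IsTower (L : IntermediateField ℚ (AlgebraicClosure ℚ)) (T : Set ℕ) : Prop where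
  infinite : ¬ FiniteDimensional ℚ L
  galois : IsGalois ℚ L
  degree : ∀ N : IntermediateField ℚ (AlgebraicClosure ℚ), N ≤ L → FiniteDimensional ℚ N →
    ∃ m : ℕ, Module.finrank ℚ N = 2 ^ m
  real : ∀ (φ : L →+* ℂ) (y : L), (φ y).im = 0
  unramified : ∀ N : IntermediateField ℚ (AlgebraicClosure ℚ), N ≤ L → ∀ [NumberField N],
    ∀ q : ℕ, q.Prime → q ∉ TenPrimes → Unramified N q
  split : ∀ N : IntermediateField ℚ (AlgebraicClosure ℚ), N ≤ L → ∀ [NumberField N],
    ∀ q : ℕ, q = 2 ∨ q ∈ T → SplitsCompletely N q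
  infinite_primes : T.Infinite
  primes : ∀ q ∈ T, q.Prime ∧ q % 8 = 1

/-- `K` is a compositum `F L` of `F` and `L`. -/
def IsCompositum (L : IntermediateField ℚ (AlgebraicClosure ℚ)) (F K : Type) [Field F] [Field K]
    [Algebra F K] : Prop :=
  ∃ ι : L →+* K, Algebra.adjoin F (Set.range ι) = ⊤

end defs

section lemmas

variable {F : Type} [Field F] [NumberField F]

theorem crv_iff (X : ℝ) (p : 𝓞 F × 𝓞 F) : Pool.Agent.N783.PF.Crv X p ↔ p ∈ UpTo F X := by
  have hb : BddAbove (Set.range fun σ : F →+* ℂ =>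
      max (4 * ‖σ (p.1 : F)‖ ^ 3) (27 * ‖σ (p.2 : F)‖ ^ 2)) := Set.Finite.bddAbove (Set.finite_range _)
  constructor
  · rintro ⟨h1, h2, h3⟩
    refine ⟨⟨h1, h2⟩, ciSup_le fun σ => max_le (h3 σ).1 (h3 σ).2⟩
  · rintro ⟨⟨h1, h2⟩, h3⟩
    refine ⟨h1, h2, fun σ => ?_⟩
    have h4 := (le_ciSup hb σ).trans h3
    exact ⟨(le_max_left _ _).trans h4, (le_max_right _ _).trans h4⟩

theorem trivial_of {M : Type} [Field M] [NumberField M] [Algebra F M] {p : 𝓞 F × 𝓞 F}
    (h : Pool.Agent.L0h50.UT.GoodM M p) : TrivialSelmer M p ∧ FiniteOdd M p := by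
  have e : Pool.Agent.N874.PP.sW (algebraMap F M (p.1 : F)) (algebraMap F M (p.2 : F)) =
      (curve p).baseChange M := by
    apply WeierstrassCurve.ext <;>
      simp [Pool.Agent.N874.PP.sW, curve, WeierstrassCurve.baseChange]
  have key : ∀ W : WeierstrassCurve M,
      Pool.Agent.N874.PP.sW (algebraMap F M (p.1 : F)) (algebraMap F M (p.2 : F)) = W →
      SelC W ∧ ShaC W ∧ Finite W.toAffine.Point ∧ Odd (Nat.card W.toAffine.Point) := by
    rintro W rfl
    exact ⟨h.sel, h.sha, h.fin, h.odd⟩
  obtain ⟨h1, h2, h3, h4⟩ := key _ e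
  exact ⟨⟨h1, h2⟩, h3, h4⟩

theorem disc_ne {p : 𝓞 F × 𝓞 F} (hp : p ∈ Family F) :
    4 * (p.1 : F) ^ 3 + 27 * (p.2 : F) ^ 2 ≠ 0 := by
  intro h0
  apply hp.1
  apply IsFractionRing.injective (𝓞 F) F
  have e4 : algebraMap (𝓞 F) F 4 = 4 := map_ofNat _ 4
  have e27 : algebraMap (𝓞 F) F 27 = 27 := map_ofNat _ 27
  rw [map_zero, map_add, map_mul, map_mul, map_pow, map_pow, e4, e27]
  exact h0

/-- The theorem for the class of extensions in valuation form. -/
theorem main (hS : Pool.Agent.L0h50.UT.S_SUBF) (F : Type) [Field F] [NumberField F] {D T : Set ℕ}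
    (hD : D.Finite) (hDp : ∀ p ∈ D, p.Prime) (hT : T.Infinite) (hT2 : ∀ q ∈ T, q.Prime ∧ q % 8 = 1) :
    (∀ X : ℝ, (UpTo F X).Finite) ∧
    ∃ c : ℝ, 0 < c ∧ ∀ᶠ X : ℝ in atTop, 0 < (UpTo F X).ncard ∧
      c * ((UpTo F X).ncard : ℝ) ≤ ({p ∈ UpTo F X |
        ∀ (K : Type) [Field K] [Algebra F K],
          (∀ t : Finset K, ∃ M : IntermediateField F K, (∀ x ∈ t, x ∈ M) ∧
            ∃ _ : NumberField M, Pool.Agent.L0h50.UT.Spl F M D T) →
          ∀ K' : IntermediateField F K,
            FiniteOdd K' p ∧ ∀ [NumberField K'], TrivialSelmer K' p}.ncard : ℝ) := by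
  have hset : ∀ X : ℝ, UpTo F X = {p : 𝓞 F × 𝓞 F | Pool.Agent.N783.PF.Crv X p} := by
    intro X
    ext p
    exact (crv_iff X p).symm
  obtain ⟨c, hc, Y₀, h⟩ := Pool.Agent.L0h50.UT.finS hS F D T hD hDp hT hT2
  have hfin : ∀ X : ℝ, (UpTo F X).Finite := fun X => by
    rw [hset]
    exact (h X).1
  refine ⟨hfin, c, hc, ?_⟩
  filter_upwards [eventually_ge_atTop Y₀] with X hX
  obtain ⟨h1, h2⟩ := (h X).2 hX
  rw [← hset] at h1 h2
  refine ⟨h1, h2.trans ?_⟩
  refine Nat.cast_le.2 (Set.ncard_le_ncard ?_ ((hfin X).subset fun p hp => hp.1))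
  rintro p ⟨hp, hg⟩
  have hp' := (crv_iff X p).1 hp
  refine ⟨hp', ?_⟩
  obtain ⟨b, hb⟩ := Pool.Agent.L0h50.UT.Tor.bound p.1 p.2 (disc_ne hp'.1)
  intro K _ _ hK K'
  constructor
  · have hK1 : Finite (Pts K p) ∧ Odd (Nat.card (Pts K p)) := by
      refine Pool.Agent.L0h50.UT.Tor.union p.1 p.2 b fun t => ?_
      obtain ⟨M, h3, i1, h4⟩ := hK t
      have h5 := (trivial_of (hg M ⟨M, _, i1, _, Algebra.id M, inferInstance, h4⟩)).2
      exact ⟨M, h3, h5.1, h5.2, hb M h4.two.two h5.1 h5.2⟩
    exact Pool.Agent.L0h50.UT.Tor.sub_odd p.1 p.2 hK1.1 hK1.2 K'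
  · intro _
    haveI : CharZero F := inferInstance
    haveI : FiniteDimensional F K' := Module.Finite.of_restrictScalars_finite ℚ F K'
    obtain ⟨α, hα⟩ := Field.exists_primitive_element F K'
    obtain ⟨M, h3, i1, h4⟩ := hK {(α : K)}
    have hle : K' ≤ M := by
      intro y hy
      have h5 : IntermediateField.adjoin F {α} ≤ M.comap K'.val := by
        rw [IntermediateField.adjoin_le_iff, Set.singleton_subset_iff]
        exact h3 α (Finset.mem_singleton_self _)
      rw [hα] at h5
      exact h5 (x := ⟨y, hy⟩) trivial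
    letI : Algebra K' M := (IntermediateField.inclusion hle).toRingHom.toAlgebra
    haveI : IsScalarTower F K' M := IsScalarTower.of_algebraMap_eq fun x => rfl
    exact (trivial_of (hg K' ⟨M, _, i1, _, inferInstance, inferInstance, h4⟩)).1

theorem exists_galois {L : IntermediateField ℚ (AlgebraicClosure ℚ)} {T : Set ℕ}
    (h : Pool.Agent.L0h50.UT.IsTw L T) (N : IntermediateField ℚ (AlgebraicClosure ℚ)) (hN : N ≤ L)
    (hf : FiniteDimensional ℚ N) : ∃ N', Pool.Agent.L0h50.UT.FG L N' ∧ N ≤ N' := by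
  obtain ⟨α, hα⟩ := Field.exists_primitive_element ℚ N
  obtain ⟨N', h1, h2⟩ := Pool.Agent.L0h50.UT.exists_FG h.gal ⟨α, hN α.2⟩
  refine ⟨N', h1, fun y hy => ?_⟩
  have h3 : IntermediateField.adjoin ℚ {α} ≤ N'.comap N.val := by
    rw [IntermediateField.adjoin_le_iff, Set.singleton_subset_iff]
    exact h2
  rw [hα] at h3
  exact h3 (x := ⟨y, hy⟩) trivial

theorem isTower_of {L : IntermediateField ℚ (AlgebraicClosure ℚ)} {T : Set ℕ}
    (h : Pool.Agent.L0h50.UT.IsTw L T) : IsTower L T := by
  refine ⟨h.inf, ?_, ?_, h.real L le_rfl, ?_, ?_, h.infT, h.pr⟩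
  · haveI := Pool.Agent.L0h50.UT.normal_of_gal h.gal
    exact ⟨⟩
  · intro N hN hf
    obtain ⟨N', h1, h2⟩ := exists_galois h N hN hf
    obtain ⟨m, hm⟩ := h.pow N' h1.le h1.fd h1.gal
    have h3 : Module.finrank ℚ N ∣ 2 ^ m := by
      rw [← hm]
      exact IntermediateField.finrank_dvd_of_le_right h2
    obtain ⟨j, -, hj⟩ := (Nat.dvd_prime_pow Nat.prime_two).mp h3
    exact ⟨j, hj⟩
  · intro N hN _ q hq hqD
    obtain ⟨N', h1, h2⟩ := exists_galois h N hN inferInstance
    haveI := h1.fd
    haveI : NumberField N' := { }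
    exact (h.unr N' h1.le h1.gal q hq hqD).equiv (IntermediateField.inclusion h2).toRingHom
  · intro N hN _ q hq
    obtain ⟨N', h1, h2⟩ := exists_galois h N hN inferInstance
    haveI := h1.fd
    haveI : NumberField N' := { }
    have hqp : q.Prime := by
      rcases hq with rfl | hq
      · exact Nat.prime_two
      · exact (h.pr q hq).1
    exact (h.spl N' h1.le h1.gal q hq).equiv hqp (IntermediateField.inclusion h2).toRingHom

end lemmas

/-- **Finitely many points over an infinite Galois extension, for a positive proportion of the elliptic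
curves over every number field.** -/
theorem result : ∃ (L : IntermediateField ℚ (AlgebraicClosure ℚ)) (T : Set ℕ), IsTower L T ∧
    ∀ (F : Type) [Field F] [NumberField F], (∀ X : ℝ, (UpTo F X).Finite) ∧
      ∃ c : ℝ, 0 < c ∧ ∀ᶠ X : ℝ in atTop, 0 < (UpTo F X).ncard ∧
        c * ((UpTo F X).ncard : ℝ) ≤ ({p ∈ UpTo F X |
          ∀ (K : Type) [Field K] [Algebra F K], IsCompositum L F K →
            ∀ K' : IntermediateField F K,
              FiniteOdd K' p ∧ ∀ [NumberField K'], TrivialSelmer K' p}.ncard : ℝ) := by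
  obtain ⟨L, T, hT⟩ := Pool.Agent.L0h50.UT.twr Pool.Agent.L0h50.UT.tw0 Pool.Agent.L0h89.UT.cmp
  have hlay := Pool.Agent.L0h51.UT.lay Pool.Agent.L0h89.UT.spc Pool.Agent.L0h51.UT.emb
  refine ⟨L, T, isTower_of hT, ?_⟩
  intro F _ _
  have hD : (Pool.Agent.L0h50.UT.D10).Finite := by
    unfold Pool.Agent.L0h50.UT.D10
    exact Set.toFinite _
  have hDp : ∀ p ∈ Pool.Agent.L0h50.UT.D10, p.Prime := by
    intro p hp
    simp only [Pool.Agent.L0h50.UT.D10, Set.mem_insert_iff, Set.mem_singleton_iff] at hp
    rcases hp with rfl | rfl | rfl | rfl | rfl | rfl | rfl | rfl | rfl | rfl <;> norm_num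
  obtain ⟨hfin, c, hc, h⟩ := main (Pool.Agent.L0h50.UT.subf Pool.Agent.L0h50.UT.cpl Pool.Agent.L0h50.UT.nrm) F hD hDp hT.infT hT.pr
  refine ⟨hfin, c, hc, ?_⟩
  filter_upwards [h] with X hX
  refine ⟨hX.1, hX.2.trans ?_⟩
  refine Nat.cast_le.2 (Set.ncard_le_ncard ?_ ((hfin X).subset fun p hp => hp.1))
  rintro p ⟨hp, hg⟩
  refine ⟨hp, fun K _ _ hK => hg K ?_⟩
  obtain ⟨ι, hι⟩ := hK
  intro t
  obtain ⟨N, h1, h2⟩ := Pool.Agent.L0h50.UT.exists_fin ι hT.gal hι t
  obtain ⟨M, h3, h4, h5⟩ := Pool.Agent.L0h50.UT.layer_of (F := F) ι h1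
  haveI : CharZero M := charZero_of_injective_algebraMap (algebraMap F M).injective
  haveI : FiniteDimensional ℚ M := FiniteDimensional.trans ℚ F M
  haveI : NumberField M := { }
  exact ⟨M, fun x hx => h3 x (h2 x hx), inferInstance, hlay L T hT F M h5⟩

end Pool.Agent.Results.MP_7cad78_nt.FiniteOverInfiniteTower
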