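import Pool.Agent.L0h51.TM.Fin
import Pool.Agent.L0h51.TM.Twi

/-!
# Trivial 2-Selmer groups over Galois 2-extensions `M / F` of every number field `F`

Let `F` be any number field. The family is the one of the problem: the pairs `(A, B)` of integers of `F`
with `4 A³ + 27 B² ≠ 0` such that no nonzero prime ideal `𝔭` has `𝔭⁴ ∣ A` and `𝔭⁶ ∣ B`, ordered by the
height `max_σ max (4 |σ A|³, 27 |σ B|²)`.

Theorem. Let `M / F` be a Galois extension of degree `2 ^ n` in which all the primes over `2` and all the
real places of `F` split completely (the Galois group and the ramification at the other primes are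
arbitrary). A positive proportion of all the curves of the family has trivial 2-Selmer group over `M`:
`E(M)` is finite of odd order and `Ш(E / M)[2^∞] = 0`, and so the rank is zero over all the fields between
`F` and `M`. Corollary: if `T` is a finite set of totally positive elements of `F` which are squares in
the completions over `2`, then for a positive proportion of the curves all the quadratic twists `E^d`,
`d ∈ T`, have finitely many points over `F` at the same time.

The proof. `F = M` is the theorem `RankZeroEveryNumberField` (project PF of helper783). There a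
congruence condition modulo `W` is imposed only at few primes; here the polynomial `f` of the curve is
taken irreducible modulo all the prime ideals which contain `W`, and `W` is divisible by all the primes at
which `M` may ramify, and the primes `q` by which we twist split completely in `M`. For `x` in
`L = F(θ)`, `f(θ) = 0`, the local conditions over `M` at the primes which do not divide `W` imply the
local conditions over `F` since the extension is unramified there and has degree one at the `q`; at the
primes which divide `W` the class is unramified because `f` is irreducible modulo the prime and the norm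
is a square; at the primes over `2` and the real places `M` embeds in the completion of `F`. The group of
the elements of `M(θ)` which satisfy the local conditions over `M` is stable under the Galois group of
`M(θ) / L`, and descent along the quadratic steps of `M / F` (helper301, after helper692) shows that it
consists of squares if its part in `L` does.

For `F = ℚ` such results are in the starting files (projects PQ, PV of helper922, QM of helper874). This
file: helper51.
-/

set_option autoImplicit false
set_option linter.all false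

namespace Pool.Agent.Results.MP_7cad78_nt.TrivialSelmerOverExtensions

open Filter NumberField IsDedekindDomain
open Pool.Agent.N874.QM (SelC ShaC)
open scoped Classical

section defs

variable (F : Type) [Field F] [NumberField F]

/-- The family of the problem: pairs of integers `(A, B)` with `4 A ^ 3 + 27 B ^ 2 ≠ 0` for which no
nonzero prime ideal `𝔭` satisfies both `𝔭 ^ 4 ∣ A` and `𝔭 ^ 6 ∣ B`. -/
def Family : Set (𝓞 F × 𝓞 F) :=
  {p | 4 * p.1 ^ 3 + 27 * p.2 ^ 2 ≠ 0 ∧
    ∀ 𝔭 : Ideal (𝓞 F), 𝔭.IsPrime → 𝔭 ≠ ⊥ → ¬ (p.1 ∈ 𝔭 ^ 4 ∧ p.2 ∈ 𝔭 ^ 6)}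

variable {F}

/-- The height `max_σ max (4 |σ A|³, 27 |σ B|²)`, over the embeddings `σ : F → ℂ`. -/
noncomputable def height (p : 𝓞 F × 𝓞 F) : ℝ :=
  ⨆ σ : F →+* ℂ, max (4 * ‖σ (p.1 : F)‖ ^ 3) (27 * ‖σ (p.2 : F)‖ ^ 2)

/-- The curve `y ^ 2 = x ^ 3 + A x + B` over `F`. -/
def curve (p : 𝓞 F × 𝓞 F) : WeierstrassCurve F := ⟨0, 0, 0, (p.1 : F), (p.2 : F)⟩

/-- Its quadratic twist `E^d : y ^ 2 = x ^ 3 + d² A x + d³ B`. -/
def twist (d : F) (p : 𝓞 F × 𝓞 F) : WeierstrassCurve F :=
  ⟨0, 0, 0, d ^ 2 * (p.1 : F), d ^ 3 * (p.2 : F)⟩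

variable (F)

/-- The members of the family of height at most `X`. -/
def UpTo (X : ℝ) : Set (𝓞 F × 𝓞 F) := {p ∈ Family F | height p ≤ X}

/-- `M / F` is Galois of degree `2 ^ n` and `M` embeds over `F` in the completions of `F` at the primes
over `2` and at the real places, that is, these places split completely in `M`. -/
structure SplitTwoExtension (M : Type) [Field M] [NumberField M] [Algebra F M] : Prop where
  galois : IsGalois F M
  degree : ∃ n : ℕ, Module.finrank F M = 2 ^ n
  two : ∀ w : HeightOneSpectrum (𝓞 F), (2 : 𝓞 F) ∈ w.asIdeal →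
    Nonempty (M →ₐ[F] w.adicCompletion F)
  real : ∀ σ : F →+* ℝ, ∃ τ : M →+* ℝ, τ.comp (algebraMap F M) = σ

/-- `d ≠ 0` is totally positive and a square in the completions of `F` at the primes over `2`. -/
structure SplitElement (d : F) : Prop where
  ne : d ≠ 0
  real : ∀ σ : F →+* ℝ, 0 < σ d
  two : ∀ w : HeightOneSpectrum (𝓞 F), (2 : 𝓞 F) ∈ w.asIdeal →
    IsSquare (algebraMap F (w.adicCompletion F) d)

variable {F}

/-- The group `E(K)`, for an extension `K` of `F`. -/
abbrev Pts (K : Type) [Field K] [Algebra F K] (p : 𝓞 F × 𝓞 F) : Type :=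
  ((curve p).baseChange K).toAffine.Point

/-- The 2-Selmer group of `E` over `M` is zero, `Ш(E / M)` has no elements of 2-power order, `E(M)` is
finite of odd order, and `E(K)` is finite for all the fields `K` between `F` and `M`. -/
structure TrivialSelmer (M : Type) [Field M] [NumberField M] [Algebra F M] (p : 𝓞 F × 𝓞 F) :
    Prop where
  selmer : SelC ((curve p).baseChange M)
  sha : ShaC ((curve p).baseChange M)
  finite : Finite (Pts M p)
  odd : Odd (Nat.card (Pts M p))
  between : ∀ K : IntermediateField F M, Finite (Pts K p)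

end defs

section lemmas

variable {F : Type} [Field F] [NumberField F]

theorem crv_iff (X : ℝ) (p : 𝓞 F × 𝓞 F) : Pool.Agent.N783.PF.Crv X p ↔ p ∈ UpTo F X := by
  have hb : BddAbove (Set.range fun σ : F →+* ℂ =>
      max (4 * ‖σ (p.1 : F)‖ ^ 3) (27 * ‖σ (p.2 : F)‖ ^ 2)) := Set.Finite.bddAbove (Set.finite_range _)
  constructor
  · rintro ⟨h1, h2, h3⟩
    refine ⟨⟨h1, h2⟩, ciSup_le fun σ => max_le (h3 σ).1 (h3 σ).2⟩
  · rintro ⟨⟨h1, h2⟩, h3⟩
    refine ⟨h1, h2, fun σ => ?_⟩
    have h4 := (le_ciSup hb σ).trans h3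
    exact ⟨(le_max_left _ _).trans h4, (le_max_right _ _).trans h4⟩

theorem trivial_of {M : Type} [Field M] [NumberField M] [Algebra F M] {p : 𝓞 F × 𝓞 F}
    (h : Pool.Agent.L0h51.TM.GoodM M p) : TrivialSelmer M p := by
  have e : Pool.Agent.N874.PP.sW (algebraMap F M (p.1 : F)) (algebraMap F M (p.2 : F)) =
      (curve p).baseChange M := by
    apply WeierstrassCurve.ext <;>
      simp [Pool.Agent.N874.PP.sW, curve, WeierstrassCurve.baseChange]
  have key : ∀ W : WeierstrassCurve M,
      Pool.Agent.N874.PP.sW (algebraMap F M (p.1 : F)) (algebraMap F M (p.2 : F)) = W →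
      SelC W ∧ ShaC W ∧ Finite W.toAffine.Point ∧ Odd (Nat.card W.toAffine.Point) := by
    rintro W rfl
    exact ⟨h.sel, h.sha, h.fin, h.odd⟩
  obtain ⟨h1, h2, h3, h4⟩ := key _ e
  refine ⟨h1, h2, h3, h4, fun K => ?_⟩
  haveI : Finite (Pts M p) := h3
  exact Finite.of_injective
    (WeierstrassCurve.Affine.Point.map (W' := (curve p).toAffine) (K.val : K →ₐ[F] M))
    (WeierstrassCurve.Affine.Point.map_injective (W' := (curve p).toAffine) (f := K.val))

theorem disc_ne {p : 𝓞 F × 𝓞 F} (hp : p ∈ Family F) :
    4 * (p.1 : F) ^ 3 + 27 * (p.2 : F) ^ 2 ≠ 0 := by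
  intro h0
  apply hp.1
  apply IsFractionRing.injective (𝓞 F) F
  have e4 : algebraMap (𝓞 F) F 4 = 4 := map_ofNat _ 4
  have e27 : algebraMap (𝓞 F) F 27 = 27 := map_ofNat _ 27
  rw [map_zero, map_add, map_mul, map_mul, map_pow, map_pow, e4, e27]
  exact h0

/-- From the points of `E^d` over `F` to the points of `E` over `M`, `√d ∈ M`. -/
theorem twist_finite {M : Type} [Field M] [NumberField M] [Algebra F M] {p : 𝓞 F × 𝓞 F}
    (hp : p ∈ Family F) {d : F} (hd : d ≠ 0) (hs : IsSquare (algebraMap F M d))
    (h : Finite (Pts M p)) : Finite (twist d p).toAffine.Point := by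
  obtain ⟨s, hs⟩ := hs
  have hd0 : algebraMap F M d ≠ 0 := by rwa [Ne, map_eq_zero]
  have hs0 : s ≠ 0 := by
    rintro rfl
    rw [mul_zero] at hs
    exact hd0 hs
  have hΔ : ((curve p).baseChange M).toAffine.Δ ≠ 0 := by
    have e : ((curve p).baseChange M).toAffine.Δ =
        algebraMap F M (-16 * (4 * (p.1 : F) ^ 3 + 27 * (p.2 : F) ^ 2)) := by
      simp only [WeierstrassCurve.Δ, WeierstrassCurve.b₂, WeierstrassCurve.b₄,
        WeierstrassCurve.b₆, WeierstrassCurve.b₈, curve, WeierstrassCurve.baseChange,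
        WeierstrassCurve.map, map_zero, map_mul, map_add, map_pow, map_neg, map_ofNat]
      ring
    rw [e, Ne, map_eq_zero]
    exact mul_ne_zero (by norm_num) (disc_ne hp)
  have heq : ∀ x y : F, (twist d p).toAffine.Equation x y →
      ((curve p).baseChange M).toAffine.Nonsingular (algebraMap F M x / algebraMap F M d)
        (algebraMap F M y / (algebraMap F M d * s)) := by
    intro x y hxy
    rw [← WeierstrassCurve.Affine.equation_iff_nonsingular_of_Δ_ne_zero hΔ,
      WeierstrassCurve.Affine.equation_iff]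
    rw [WeierstrassCurve.Affine.equation_iff] at hxy
    have h1 := congrArg (algebraMap F M) hxy
    simp only [twist, map_add, map_mul, map_pow, map_zero, zero_mul, add_zero] at h1
    simp only [curve, WeierstrassCurve.baseChange, WeierstrassCurve.map, map_zero, zero_mul,
      add_zero]
    rw [div_pow, mul_pow, pow_two s, ← hs]
    field_simp
    linear_combination h1
  haveI : Finite (Pts M p) := h
  refine Finite.of_injective (β := Pts M p) (fun P : (twist d p).toAffine.Point => match P with
    | .zero => .zero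
    | .some x y hxy => .some _ _ (heq x y hxy.1)) ?_
  rintro (_ | ⟨x, y, hxy⟩) (_ | ⟨x', y', hxy'⟩) h2
  · rfl
  · simp at h2
  · simp at h2
  · simp only [WeierstrassCurve.Affine.Point.some.injEq] at h2 ⊢
    obtain ⟨h3, h4⟩ := h2
    constructor
    · rw [div_left_inj' hd0] at h3
      exact (algebraMap F M).injective h3
    · rw [div_left_inj' (mul_ne_zero hd0 hs0)] at h4
      exact (algebraMap F M).injective h4

end lemmas

/-- **Trivial 2-Selmer groups over Galois 2-extensions of every number field.** -/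
theorem result (F : Type) [Field F] [NumberField F] :
    (∀ X : ℝ, (UpTo F X).Finite) ∧
    (∀ (M : Type) [Field M] [NumberField M] [Algebra F M], SplitTwoExtension F M →
      ∃ c : ℝ, 0 < c ∧ ∀ᶠ X : ℝ in atTop, 0 < (UpTo F X).ncard ∧
        c * ((UpTo F X).ncard : ℝ) ≤ ({p ∈ UpTo F X | TrivialSelmer M p}.ncard : ℝ)) ∧
    ∀ T : Finset F, (∀ d ∈ T, SplitElement F d) →
      ∃ c : ℝ, 0 < c ∧ ∀ᶠ X : ℝ in atTop, 0 < (UpTo F X).ncard ∧
        c * ((UpTo F X).ncard : ℝ) ≤
          ({p ∈ UpTo F X | ∀ d ∈ T, Finite (twist d p).toAffine.Point}.ncard : ℝ) := by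
  have hset : ∀ X : ℝ, UpTo F X = {p : 𝓞 F × 𝓞 F | Pool.Agent.N783.PF.Crv X p} := by
    intro X
    ext p
    exact (crv_iff X p).symm
  have hfin : ∀ X : ℝ, (UpTo F X).Finite := fun X => by
    rw [hset]
    exact Pool.Agent.N61.PF.crv_finite Pool.Agent.N490.PF.pts X
  have hmain : ∀ (M : Type) [Field M] [NumberField M] [Algebra F M], SplitTwoExtension F M →
      ∃ c : ℝ, 0 < c ∧ ∀ᶠ X : ℝ in atTop, 0 < (UpTo F X).ncard ∧
        c * ((UpTo F X).ncard : ℝ) ≤ ({p ∈ UpTo F X | TrivialSelmer M p}.ncard : ℝ) := by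
    intro M _ _ _ hM
    obtain ⟨n, hn⟩ := hM.degree
    obtain ⟨c, hc, Y₀, h⟩ := Pool.Agent.L0h51.TM.finM
      (⟨hM.galois, hn, hM.two, hM.real⟩ : Pool.Agent.L0h51.TM.Ext F M n)
    refine ⟨c, hc, ?_⟩
    filter_upwards [eventually_ge_atTop Y₀] with X hX
    obtain ⟨h1, h2⟩ := h X hX
    rw [← hset] at h1 h2
    refine ⟨h1, h2.trans ?_⟩
    have h3 : {p : 𝓞 F × 𝓞 F | Pool.Agent.N783.PF.Crv X p ∧ Pool.Agent.L0h51.TM.GoodM M p} ⊆
        {p ∈ UpTo F X | TrivialSelmer M p} := by
      rintro p ⟨hp, hg⟩
      exact ⟨(crv_iff X p).1 hp, trivial_of hg⟩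
    have h4 := Set.ncard_le_ncard h3 ((hfin X).subset fun p hp => hp.1)
    exact_mod_cast h4
  refine ⟨hfin, hmain, fun T hT => ?_⟩
  obtain ⟨M, _, _, _, n, hM, hsq⟩ := Pool.Agent.L0h51.TM.exists_M F T
    (fun d hd σ => ((hT d hd).real σ).le) (fun d hd => (hT d hd).two)
  obtain ⟨c, hc, h⟩ := hmain M ⟨hM.gal, ⟨n, hM.rank⟩, hM.two, hM.real⟩
  refine ⟨c, hc, ?_⟩
  filter_upwards [h] with X hX
  refine ⟨hX.1, hX.2.trans ?_⟩
  have h3 : {p ∈ UpTo F X | TrivialSelmer M p} ⊆
      {p ∈ UpTo F X | ∀ d ∈ T, Finite (twist d p).toAffine.Point} := by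
    rintro p ⟨hp, hg⟩
    exact ⟨hp, fun d hd => twist_finite hp.1 (hT d hd).ne (hsq d hd) hg.finite⟩
  have h4 := Set.ncard_le_ncard h3 ((hfin X).subset fun p hp => hp.1)
  exact_mod_cast h4

end Pool.Agent.Results.MP_7cad78_nt.TrivialSelmerOverExtensions
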